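import Mathlib
import Pool.Agent.H.MP_c8cc4c_co.Hub.Anc
import Pool.Agent.H.MP_c8cc4c_co.F.SdA

/-!
# MP_c8cc4c_co, full question, part T: the cells of the tree
-/

open scoped Classical
open Finset

noncomputable section

namespace Pool.Agent.H.MP_c8cc4c_co.Hub

variable {M : PC} (R : Rt M.V)

/-- `c` is the child end of the tree edge `e` -/
def ChE (e : M.E) (c : M.V) : Prop := c ≠ R.o ∧ M.inc e c ∧ M.inc e (R.par c)

/-- tree edge -/
def TreeE (e : M.E) : Prop := ∃ c, ChE R e c

/-- vertex cells and tree edge cells -/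
def ST : Set M.sdPC.V := {x | (∃ v, x = M.cv v) ∨ ∃ e, TreeE R e ∧ x = M.ce e}

/-- the owner of a cell: the vertex itself; the child end of a tree edge -/
def cellOwn (x : M.Cell) : M.V :=
  match x with
  | Sum.inl v => v
  | Sum.inr (Sum.inl e) => if h : TreeE R e then h.choose else R.o
  | Sum.inr (Sum.inr _) => R.o

theorem cellOwn_cv (v : M.V) : cellOwn R (M.cv v) = v := rfl

/-- the child end is unique -/
theorem ChE_unique (hM : M.IsSphere) (hG : R.G = M.graph) {e : M.E} {c c' : M.V} (h : ChE R e c)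
    (h' : ChE R e c') : c = c' := by
  by_contra hne
  obtain ⟨h1, h2, h3⟩ := h
  obtain ⟨h1', h2', h3'⟩ := h'
  have hp : R.par c ≠ c := fun hc => by
    have := R.par_adj c h1
    rw [hc] at this
    exact R.G.loopless.irrefl _ this
  have hp' : R.par c' ≠ c' := fun hc => by
    have := R.par_adj c' h1'
    rw [hc] at this
    exact R.G.loopless.irrefl _ this
  obtain ⟨x, y, hxy, hh⟩ := hM.inc_two e
  have e1 := R.par_f c h1
  have e2 := R.par_f c' h1'
  have a1 := (hh c).1 h2
  have a2 := (hh _).1 h3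
  have a3 := (hh c').1 h2'
  have a4 := (hh _).1 h3'
  rcases a1 with rfl | rfl <;> rcases a3 with rfl | rfl
  · exact hne rfl
  · rcases a2 with a2 | a2
    · exact hp a2
    · rcases a4 with a4 | a4
      · rw [a2] at e1
        rw [a4] at e2
        omega
      · exact hp' a4
  · rcases a2 with a2 | a2
    · rcases a4 with a4 | a4
      · exact hp' a4
      · rw [a2] at e1
        rw [a4] at e2
        omega
    · exact hp a2
  · exact hne rfl

theorem cellOwn_ce (hM : M.IsSphere) (hG : R.G = M.graph) {e : M.E} {c : M.V} (h : ChE R e c) :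
    cellOwn R (M.ce e) = c := by
  have hT : TreeE R e := ⟨c, h⟩
  change (if h : TreeE R e then h.choose else R.o) = c
  rw [dif_pos hT]
  exact ChE_unique R hM hG hT.choose_spec h

theorem cv_mem (v : M.V) : (M.cv v : M.sdPC.V) ∈ ST R := Or.inl ⟨v, rfl⟩

theorem ce_mem {e : M.E} : (M.ce e : M.sdPC.V) ∈ ST R ↔ TreeE R e := by
  constructor
  · rintro (⟨v, h⟩ | ⟨e', h, h'⟩)
    · exact absurd h.symm SdA_cv_ce
    · rw [SdA_ce_inj.1 h']
      exact h
  · intro h
    exact Or.inr ⟨e, h, rfl⟩

theorem cf_not {f : M.F} : (M.cf f : M.sdPC.V) ∉ ST R := by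
  rintro (⟨v, h⟩ | ⟨e', h, h'⟩)
  · exact absurd h.symm SdA_cv_cf
  · exact absurd h'.symm SdA_ce_cf

/-- an edge between a vertex and its parent exists -/
theorem exists_ChE (hG : R.G = M.graph) {v : M.V} (hv : v ≠ R.o) : ∃ e, ChE R e v := by
  have h := R.par_adj v hv
  rw [hG] at h
  obtain ⟨_, e, h1, h2⟩ := h
  exact ⟨e, hv, h1, h2⟩

end Pool.Agent.H.MP_c8cc4c_co.Hub
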