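import Mathlib
import Pool.Agent.H.MP_c8cc4c_co.Hub.T.Def
import Pool.Agent.H.MP_c8cc4c_co.F.TriD
import Pool.Agent.H.MP_c8cc4c_co.F.SdC

/-!
# MP_c8cc4c_co, full question, part T: the cells of the tree are connected and have connected complement
-/

open scoped Classical
open Finset

noncomputable section

namespace Pool.Agent.H.MP_c8cc4c_co.Hub

variable {M : PC} (R : Rt M.V)

/-- The cells of a subtree are connected. `D` = set of vertices with root `r`: every `v ∈ D`, `v ≠ r` has
`v ≠ o` and `par v ∈ D`.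
Proof. Strong induction on `R.f v`: every `cv v`, `v ∈ D` is joined to `cv r` in the set: for `v ≠ r` take the tree
edge `e` of `v` (`exists_ChE`), `cv v - ce e - cv (par v)`; `ce e` is in the set (`cellOwn_ce`, owner `v`), and
`f (par v) < f v`. A cell `ce e` of the set with owner `c` is adjacent to `cv c` (`sd_adj_ve`). Then
`connOn_of_center` (or directly). -/
theorem conn_D (hM : M.IsSphere) (hG : R.G = M.graph) (D : Set M.V) (r : M.V) (hr : r ∈ D)
    (hD : ∀ v ∈ D, v ≠ r → v ≠ R.o ∧ R.par v ∈ D) :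
    ConnOn M.sdPC.graph {x : M.sdPC.V | x ∈ ST R ∧ cellOwn R x ∈ D} := by
  set A : Set M.Cell := {x : M.sdPC.V | x ∈ ST R ∧ cellOwn R x ∈ D} with hA
  have hcv : ∀ v ∈ D, (M.cv v : M.Cell) ∈ A := fun v hv => ⟨cv_mem R v, hv⟩
  have hce : ∀ e v, ChE R e v → v ∈ D → (M.ce e : M.Cell) ∈ A := fun e v he hv =>
    ⟨(ce_mem R).2 ⟨v, he⟩, by rw [cellOwn_ce R hM hG he]; exact hv⟩
  have step : ∀ n : ℕ, ∀ v ∈ D, R.f v ≤ n → ∃ k, Near M.sd A k (M.cv r) (M.cv v) := by
    intro n
    induction n with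
    | zero =>
      intro v hv hn
      by_cases hvr : v = r
      · subst hvr
        exact ⟨0, near_refl (hcv _ hv)⟩
      · exact absurd ((R.f_zero v).1 (by omega)) (hD v hv hvr).1
    | succ n ih =>
      intro v hv hn
      by_cases hvr : v = r
      · subst hvr
        exact ⟨0, near_refl (hcv _ hv)⟩
      · obtain ⟨hvo, hp⟩ := hD v hv hvr
        have hf := R.par_f v hvo
        obtain ⟨k, hk⟩ := ih (R.par v) hp (by omega)
        obtain ⟨e, he⟩ := exists_ChE R hG hvo
        have h1 : Near M.sd A 1 (M.cv (R.par v)) (M.ce e) :=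
          near_adj (hcv _ hp) (hce e v he hv) (sd_adj_ve.2 he.2.2)
        have h2 : Near M.sd A 1 (M.ce e) (M.cv v) :=
          near_adj (hce e v he hv) (hcv _ hv) (sd_adj_ve.2 he.2.1).symm
        exact ⟨_, near_trans hk (near_trans h1 h2)⟩
  refine connOn_of_center (x := (M.cv r : M.Cell)) (hcv r hr) ?_
  intro y hy
  change y ∈ ST R ∧ cellOwn R y ∈ D at hy
  rcases hy.1 with ⟨v, rfl⟩ | ⟨e, ⟨c, hc⟩, rfl⟩
  · exact step (R.f v) v hy.2 le_rfl
  · have hcD : c ∈ D := by
      have := hy.2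
      rwa [cellOwn_ce R hM hG hc] at this
    obtain ⟨k, hk⟩ := step (R.f c) c hcD le_rfl
    exact ⟨_, near_trans hk (near_adj (hcv c hcD) (hce e c hc hcD) (sd_adj_ve.2 hc.2.1))⟩

/-- There is no cycle in the tree.
Proof. Suppose `z p ≠ 0` for some edge `p` of the subdivision. All edges in the support have both ends in `ST R`, so (by
`SdA_edge_cases`, `cf_not`, `ce_mem`) they have the form `SdA_ve v e h` with `TreeE R e`. Choose one such edge
`SdA_ve v e h` (with child end `c` of `e`) such that `R.f c` is maximal (`Finset.exists_max_image` or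
`Nat.findGreatest`; for example strong induction on a bound: use the finite type of edges `p` with `z p ≠ 0` and the
function `R.f (cellOwn R p.1.2)`). By `ev_other` at the vertex `ce e` there is another edge `p'` of the support at
`ce e`; it is `SdA_ve v' e h'` with `v' ≠ v` (an edge of the subdivision is determined by its two cells). As `e` has only the ends
`c` and `par c`, one of the two edges is `SdA_ve c e _`. By `ev_other` at `cv c` there is another edge `p''` in the support
at `cv c`, `p'' = SdA_ve c e'' _`, `e'' ≠ e`, `TreeE R e''`, with child end `c''`. `c` is an end of `e''`, so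
`c = c''` (then `e''` and `e` are both edges between `c` and `par c`, so equal by `M.Simple`, contradiction) or
`c = par c''` (then `R.f c'' = R.f c + 1`, contradiction to the maximality). -/
theorem no_cycle (hM : M.IsSphere) (hS : M.Simple) (hG : R.G = M.graph)
    (z : M.sdPC.E → ZMod 2) (hz : M.sdPC.Ev z)
    (hz' : ∀ e x, z e ≠ 0 → M.sdPC.inc e x → x ∈ ST R) : z = 0 := by
  by_contra hz0
  have hne : ∃ p, z p ≠ 0 := by
    by_contra h
    push Not at h
    exact hz0 (funext h)
  obtain ⟨p0, hp0⟩ := hne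
  have hne' : (univ.filter fun p : M.sdPC.E => z p ≠ 0).Nonempty :=
    ⟨p0, Finset.mem_filter.2 ⟨mem_univ _, hp0⟩⟩
  obtain ⟨p, hp, hmax⟩ := Finset.exists_max_image (univ.filter fun p : M.sdPC.E => z p ≠ 0)
    (fun p => R.f (cellOwn R p.1.2)) hne'
  have hzp : z p ≠ 0 := (Finset.mem_filter.1 hp).2
  have form : ∀ q : M.sdPC.E, z q ≠ 0 → ∃ v e h, q = SdA_ve v e h ∧ TreeE R e := by
    intro q hq
    rcases SdA_edge_cases q with ⟨x, e, h, rfl⟩ | ⟨x, f, h, rfl⟩ | ⟨e, f, h, rfl⟩
    · exact ⟨x, e, h, rfl, (ce_mem R).1 (hz' _ _ hq ((SdA_inc_ve (h := h) _).2 (Or.inr rfl)))⟩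
    · exact absurd (hz' _ _ hq ((SdA_inc_vf (h := h) _).2 (Or.inr rfl))) (cf_not R)
    · exact absurd (hz' _ _ hq ((SdA_inc_ef (h := h) _).2 (Or.inr rfl))) (cf_not R)
  obtain ⟨v, e, h, rfl, c, hc⟩ := form p hzp
  have hmax' : ∀ v' e' h' c', z (SdA_ve v' e' h') ≠ 0 → ChE R e' c' → R.f c' ≤ R.f c := by
    intro v' e' h' c' hz1 hc'
    have := hmax (SdA_ve v' e' h') (Finset.mem_filter.2 ⟨mem_univ _, hz1⟩)
    change R.f (cellOwn R (M.ce e')) ≤ R.f (cellOwn R (M.ce e)) at this
    rwa [cellOwn_ce R hM hG hc', cellOwn_ce R hM hG hc] at this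
  have hpc : R.par c ≠ c := fun hcc => by
    have := R.par_adj c hc.1
    rw [hcc] at this
    exact R.G.loopless.irrefl _ this
  have ends : ∀ e' c', ChE R e' c' → ∀ u, M.inc e' u → u = c' ∨ u = R.par c' := by
    intro e' c' hc' u hu
    have hp' : R.par c' ≠ c' := fun hcc => by
      have := R.par_adj c' hc'.1
      rw [hcc] at this
      exact R.G.loopless.irrefl _ this
    obtain ⟨x, y, hxy, hh⟩ := hM.inc_two e'
    have a1 := (hh _).1 hc'.2.1
    have a2 := (hh _).1 hc'.2.2
    have a3 := (hh _).1 hu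
    rcases a1 with a1 | a1 <;> rcases a2 with a2 | a2 <;> rcases a3 with a3 | a3
    · exact absurd (a2.trans a1.symm) hp'
    · exact absurd (a2.trans a1.symm) hp'
    · exact Or.inl (a3.trans a1.symm)
    · exact Or.inr (a3.trans a2.symm)
    · exact Or.inr (a3.trans a2.symm)
    · exact Or.inl (a3.trans a1.symm)
    · exact absurd (a2.trans a1.symm) hp'
    · exact absurd (a2.trans a1.symm) hp'
  -- the edge at `c`
  have hzc : z (SdA_ve c e hc.2.1) ≠ 0 := by
    rcases ends e c hc v h with rfl | rfl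
    · exact hzp
    · obtain ⟨p', hp1, hp2, hp3⟩ := ev_other hz hzp ((SdA_inc_ve (h := h) _).2 (Or.inr rfl))
      obtain ⟨v', e', h', rfl, _⟩ := form p' hp2
      have he : e' = e := by
        rcases (SdA_inc_ve (h := h') _).1 hp3 with h1 | h1
        · exact absurd h1.symm SdA_cv_ce
        · exact (SdA_ce_inj.1 h1).symm
      subst he
      rcases ends e' c hc v' h' with rfl | rfl
      · exact hp2
      · exact absurd rfl hp1
  obtain ⟨p'', hp1, hp2, hp3⟩ := ev_other hz hzc ((SdA_inc_ve (h := hc.2.1) _).2 (Or.inl rfl))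
  obtain ⟨v', e', h', rfl, c', hc'⟩ := form p'' hp2
  have hv : v' = c := by
    rcases (SdA_inc_ve (h := h') _).1 hp3 with h1 | h1
    · exact (SdA_cv_inj.1 h1).symm
    · exact absurd h1 SdA_cv_ce
  subst hv
  rcases ends e' c' hc' _ h' with h1 | h1
  · subst h1
    have := hS e' e _ _ hpc hc'.2.2 hc'.2.1 hc.2.2 hc.2.1
    subst this
    exact hp1 rfl
  · have h2 := hmax' _ e' h' c' hp2 hc'
    have h3 := R.par_f c' hc'.1
    rw [← h1] at h3
    omega

/-- `ST R` is connected: `conn_D` with `D = univ`, `r = o` (`v ≠ o` holds as `v ≠ r`). -/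
theorem ST_conn (hM : M.IsSphere) (hG : R.G = M.graph) : ConnOn M.sdPC.graph (ST R) := by
  have h := conn_D R hM hG Set.univ R.o (Set.mem_univ _) (fun v _ hv => ⟨hv, Set.mem_univ _⟩)
  have h2 : {x : M.sdPC.V | x ∈ ST R ∧ cellOwn R x ∈ (Set.univ : Set M.V)} = ST R := by
    ext x
    exact ⟨fun h => h.1, fun h => ⟨h, Set.mem_univ _⟩⟩
  rwa [h2] at h

/-- The complement is connected: `compl_conn` for `T = M.sdPC` (`sd_sphere`), `S = ST R`, `O = ∅`, with
`no_cycle`; `∅ᶜ` is connected by `IsSphere.conn`; a face cell is not in `ST R`. -/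
theorem ST_compl (hM : M.IsSphere) (hS : M.Simple) (hG : R.G = M.graph) (hF : Nonempty M.F) :
    ConnOn M.sdPC.graph (ST R)ᶜ := by
  obtain ⟨h1, h2, h3⟩ := sd_sphere M hM hF
  refine compl_conn M.sdPC h1 h2 h3 (ST R) ∅ (Set.empty_subset _) ?_ ?_ ?_
  · rw [Set.compl_empty]
    obtain ⟨x⟩ := h1.nonempty
    exact ⟨⟨x, Set.mem_univ _⟩, fun x _ y _ => h1.conn x y⟩
  · obtain ⟨f⟩ := hF
    exact ⟨M.cf f, cf_not R⟩
  · intro z hz hz' e x hze
    rw [no_cycle R hM hS hG z hz hz'] at hze
    exact absurd rfl hze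

end Pool.Agent.H.MP_c8cc4c_co.Hub
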