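import Mathlib
import Pool.Agent.H.MP_c8cc4c_co.Hub.T.Conn
import Pool.Agent.H.MP_c8cc4c_co.F.TriB
import Pool.Agent.H.MP_c8cc4c_co.F.TriC
import Pool.Agent.H.MP_c8cc4c_co.F.SdC
import Pool.Agent.H.MP_c8cc4c_co.B.Star

/-!
# MP_c8cc4c_co, full question, part T: the contour of the tree
-/

open scoped Classical
open Finset

noncomputable section

namespace Pool.Agent.H.MP_c8cc4c_co.Hub

variable {M : PC} (R : Rt M.V)

/-- the contour of the tree, starting at `o` -/
structure Con where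
  m : ℕ
  g : ℕ → M.sdPC.E
  hm : 3 ≤ m
  hp : ∀ t, g (t + m) = g t
  hi : ∀ s t, s < m → t < m → g s = g t → s = t
  hg : ∀ e, e ∈ M.sdPC.cut (ST R) ↔ ∃ t, g t = e
  hf : ∀ t, ∃ f, M.sdPC.bd f (g t) ∧ M.sdPC.bd f (g (t + 1))
  h0 : cellOwn R (g 0).1.1 = R.o

/-- The three kinds of cut edges. (`SdA_edge_cases`, `cv_mem`, `ce_mem`, `cf_not`; an edge of the subdivision has exactly the
ends `p.1.1` and `p.1.2`; membership in `cut` is: one end in, one end out.) -/
theorem cut_cases (p : M.sdPC.E) : p ∈ M.sdPC.cut (ST R) ↔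
    (∃ x e h, p = SdA_ve x e h ∧ ¬ TreeE R e) ∨ (∃ x f h, p = SdA_vf x f h) ∨
      ∃ e f h, p = SdA_ef e f h ∧ TreeE R e := by
  rw [TriA_mem_cut (T := M.sdPC) (e := p) (x := p.1.1) (y := p.1.2) (fun _ => Iff.rfl) (ST R)]
  constructor
  · intro h
    rcases SdA_edge_cases p with ⟨x, e, hx, rfl⟩ | ⟨x, f, hx, rfl⟩ | ⟨e, f, hx, rfl⟩
    · left
      refine ⟨x, e, hx, rfl, fun hT => ?_⟩
      rcases h with ⟨-, h2⟩ | ⟨h1, -⟩
      · exact h2 ((ce_mem R).2 hT)
      · exact h1 (cv_mem R x)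
    · exact Or.inr (Or.inl ⟨x, f, hx, rfl⟩)
    · right
      right
      refine ⟨e, f, hx, rfl, ?_⟩
      rcases h with ⟨h1, -⟩ | ⟨-, h2⟩
      · exact (ce_mem R).1 h1
      · exact absurd h2 (cf_not R)
  · rintro (⟨x, e, hx, rfl, hT⟩ | ⟨x, f, hx, rfl⟩ | ⟨e, f, hx, rfl, hT⟩)
    · exact Or.inl ⟨cv_mem R x, fun h => hT ((ce_mem R).1 h)⟩
    · exact Or.inl ⟨cv_mem R x, cf_not R⟩
    · exact Or.inl ⟨(ce_mem R).2 hT, cf_not R⟩

theorem SdA_ne2' {x : M.V} {e e' : M.E} {f : M.F} {h : M.inc e x} {h' : M.bd f e'} :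
    SdA_ve x e h ≠ SdA_ef e' f h' := by
  intro hh
  have := congrArg (fun p => p.1.2) hh
  exact SdA_ce_cf this

theorem SdA_ne3' {x : M.V} {e : M.E} {f f' : M.F} {h : M.At f x} {h' : M.bd f' e} :
    SdA_vf x f h ≠ SdA_ef e f' h' := by
  intro hh
  have := congrArg (fun p => p.1.1) hh
  exact SdA_cv_ce this

/-- Every vertex is the owner of a cut edge: `v` is at a face `f` (`exists_at`), the edge `SdA_vf v f`. -/
theorem exists_cut (hM : M.IsSphere) (hF : Nonempty M.F) (v : M.V) :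
    ∃ p ∈ M.sdPC.cut (ST R), cellOwn R p.1.1 = v := by
  obtain ⟨f0⟩ := hF
  obtain ⟨e, he⟩ := hM.face_ne f0
  obtain ⟨x, y, hxy, hh⟩ := hM.inc_two e
  have hex : ∃ z : M.V, v ≠ z := by
    by_cases h : v = x
    · exact ⟨y, by rw [h]; exact hxy⟩
    · exact ⟨x, h⟩
  obtain ⟨z, hz⟩ := hex
  obtain ⟨f, hf⟩ := exists_at hM hz
  exact ⟨SdA_vf v f hf, (cut_cases R _).2 (Or.inr (Or.inl ⟨v, f, hf, rfl⟩)), rfl⟩

/-- the two cut edges of a flag (one direction) -/
theorem own_flag (hM : M.IsSphere) (hG : R.G = M.graph) {v : M.V} {e : M.E} {f : M.F}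
    (h : M.inc e v) (h' : M.bd f e) (p : M.sdPC.E) (hp : p ∈ M.sdPC.cut (ST R))
    (h1 : M.sdPC.bd (SdA_fl v e f h h') p) : cellOwn R p.1.1 = v ∨
      ∃ c, ChE R e c ∧ cellOwn R p.1.1 = c := by
  rcases (SdA_bd_fl p).1 h1 with rfl | rfl | rfl
  · exact Or.inl rfl
  · exact Or.inl rfl
  · right
    rcases (cut_cases R _).1 hp with ⟨x, e1, hx, hh, -⟩ | ⟨x, f1, hx, hh⟩ | ⟨e1, f1, hx, hh, hT⟩
    · exact absurd hh.symm SdA_ne2'
    · exact absurd hh.symm SdA_ne3'
    · obtain ⟨c, hc⟩ := hT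
      have : e = e1 := by
        have := congrArg (fun p => p.1.1) hh
        exact SdA_ce_inj.1 this
      subst this
      exact ⟨c, hc, cellOwn_ce R hM hG hc⟩

/-- Owners of consecutive edges are equal or parent and child.
Proof. Let the flag be `(v, e, f)` (`SdA_flag_cases`), `p` and `q` among `SdA_ve v e`, `SdA_vf v f`, `SdA_ef e f` (`SdA_bd_fl`).
If `e` is a tree edge with child end `c`: `SdA_ve v e` is not cut; the owner of `SdA_vf v f` is `v`, the owner of `SdA_ef e f` is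
`c` (`cellOwn_ce`), and `v = c` or `v = par c` (the ends of `e` are `c`, `par c`, which are different). If `e` is not a tree edge:
`SdA_ef e f` is not cut and the other two have owner `v`. -/
theorem own_step (hM : M.IsSphere) (hG : R.G = M.graph) (t : M.sdPC.F) (p q : M.sdPC.E)
    (hp : p ∈ M.sdPC.cut (ST R)) (hq : q ∈ M.sdPC.cut (ST R)) (h1 : M.sdPC.bd t p)
    (h2 : M.sdPC.bd t q) :
    cellOwn R p.1.1 = cellOwn R q.1.1 ∨
      (cellOwn R q.1.1 ≠ R.o ∧ cellOwn R p.1.1 = R.par (cellOwn R q.1.1)) ∨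
      (cellOwn R p.1.1 ≠ R.o ∧ cellOwn R q.1.1 = R.par (cellOwn R p.1.1)) := by
  obtain ⟨v, e, f, h, h', rfl⟩ := SdA_flag_cases t
  have key : ∀ c, ChE R e c → v = c ∨ v = R.par c := by
    intro c hc
    obtain ⟨hc1, hc2, hc3⟩ := hc
    obtain ⟨x, y, hxy, hh⟩ := hM.inc_two e
    have hne : R.par c ≠ c := fun hcc => by
      have := R.par_adj c hc1
      rw [hcc] at this
      exact R.G.loopless.irrefl _ this
    have a1 := (hh c).1 hc2
    have a2 := (hh _).1 hc3
    have a3 := (hh v).1 h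
    rcases a1 with a1 | a1 <;> rcases a2 with a2 | a2 <;> rcases a3 with a3 | a3
    · exact absurd (a2.trans a1.symm) hne
    · exact absurd (a2.trans a1.symm) hne
    · exact Or.inl (a3.trans a1.symm)
    · exact Or.inr (a3.trans a2.symm)
    · exact Or.inr (a3.trans a2.symm)
    · exact Or.inl (a3.trans a1.symm)
    · exact absurd (a2.trans a1.symm) hne
    · exact absurd (a2.trans a1.symm) hne
  rcases own_flag R hM hG h h' p hp h1 with h3 | ⟨c, hc, h3⟩ <;>
    rcases own_flag R hM hG h h' q hq h2 with h4 | ⟨c', hc', h4⟩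
  · exact Or.inl (h3.trans h4.symm)
  · rcases key c' hc' with h5 | h5
    · left
      rw [h3, h4, h5]
    · right
      left
      rw [h3, h4]
      exact ⟨hc'.1, h5⟩
  · rcases key c hc with h5 | h5
    · left
      rw [h3, h4, h5]
    · right
      right
      rw [h3, h4]
      exact ⟨hc.1, h5⟩
  · left
    rw [h3, h4]
    exact ChE_unique R hM hG hc hc'

/-- The contour exists.
Proof. `contour` for `M.sdPC` (`sd_sphere`), `S = ST R` (`ST_conn`, `ST_compl`) gives `m`, `g`. By `exists_cut` and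
`hg` there is `t0` with `cellOwn R (g t0).1.1 = R.o`; take `t ↦ g (t + t0)`. Injectivity on `[0, m)`: `g` depends only
on `t % m` (`per_mod`), so `(s + t0) % m = (t + t0) % m`, so `s = t`. Surjectivity: `g t = g (t % m)`, and
`t % m` is of the form `(s + t0) % m`. -/
theorem exists_con (hM : M.IsSphere) (hS : M.Simple) (hG : R.G = M.graph) (hF : Nonempty M.F) :
    Nonempty (Con R) := by
  obtain ⟨hsp, hsi, htr⟩ := sd_sphere M hM hF
  obtain ⟨m, g, hm, hp, hi, hg, hf⟩ := contour M.sdPC hsp hsi htr (ST R) (ST_conn R hM hG)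
    (ST_compl R hM hS hG hF)
  obtain ⟨p, hpc, hpo⟩ := exists_cut R hM hF R.o
  obtain ⟨t0, ht0⟩ := (hg p).1 hpc
  refine ⟨⟨m, fun t => g (t + t0), hm, ?_, ?_, ?_, ?_, ?_⟩⟩
  · intro t
    have : t + m + t0 = t + t0 + m := by ring
    change g (t + m + t0) = g (t + t0)
    rw [this, hp]
  · intro s t hs ht hst
    have h1 : (s + t0) % m = (t + t0) % m := TriC_inj hm hp hi hst
    have h2 : s ≡ t [MOD m] := Nat.ModEq.add_right_cancel' t0 h1
    have h3 : s % m = t % m := h2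
    rwa [Nat.mod_eq_of_lt hs, Nat.mod_eq_of_lt ht] at h3
  · intro e
    rw [hg]
    constructor
    · rintro ⟨t, rfl⟩
      refine ⟨t + (m - 1) * t0, ?_⟩
      change g (t + (m - 1) * t0 + t0) = g t
      have h1 : t + (m - 1) * t0 + t0 = t + m * t0 := by
        obtain ⟨k, rfl⟩ : ∃ k, m = k + 1 := ⟨m - 1, by omega⟩
        simp only [Nat.add_sub_cancel]
        ring
      rw [h1, TriC_mod hp (t + m * t0), TriC_mod hp t, Nat.add_mul_mod_self_left]
    · rintro ⟨t, rfl⟩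
      exact ⟨t + t0, rfl⟩
  · intro t
    obtain ⟨f, h1, h2⟩ := hf (t + t0)
    refine ⟨f, h1, ?_⟩
    have : t + 1 + t0 = t + t0 + 1 := by ring
    change M.sdPC.bd f (g (t + 1 + t0))
    rw [this]
    exact h2
  · change cellOwn R (g (0 + t0)).1.1 = R.o
    rw [Nat.zero_add, ht0]
    exact hpo

end Pool.Agent.H.MP_c8cc4c_co.Hub
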