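import Mathlib
import Pool.Agent.H.MP_c8cc4c_co.Hub.T.Contour

/-!
# MP_c8cc4c_co, full question, part T: times and owners
-/

open scoped Classical
open Finset

noncomputable section

namespace Pool.Agent.H.MP_c8cc4c_co.Hub

namespace Con

variable {M : PC} {R : Rt M.V} (C : Con R)

/-- the owner of a time -/
def ow (t : ℕ) : M.V := cellOwn R (C.g t).1.1

theorem g_cut (t : ℕ) : C.g t ∈ M.sdPC.cut (ST R) := (C.hg _).2 ⟨t, rfl⟩

theorem exists_time {p : M.sdPC.E} (hp : p ∈ M.sdPC.cut (ST R)) : ∃ t < C.m, C.g t = p := by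
  obtain ⟨t, ht⟩ := (C.hg p).1 hp
  refine ⟨t % C.m, Nat.mod_lt _ (by have := C.hm; omega), ?_⟩
  rw [← TriC_mod C.hp t, ht]

theorem ow_surj (hM : M.IsSphere) (hF : Nonempty M.F) (v : M.V) : ∃ t < C.m, C.ow t = v := by
  obtain ⟨p, hp, hpv⟩ := exists_cut R hM hF v
  obtain ⟨t, ht, htp⟩ := C.exists_time hp
  refine ⟨t, ht, ?_⟩
  change cellOwn R (C.g t).1.1 = v
  rw [htp]
  exact hpv

/-- the tree side of a cut edge -/
theorem in_ST (t : ℕ) : ((C.g t).1.1 : M.sdPC.V) ∈ ST R := by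
  rcases (cut_cases R _).1 (C.g_cut t) with ⟨x, e, hx, hh, -⟩ | ⟨x, f, hx, hh⟩ |
    ⟨e, f, hx, hh, hT⟩
  · rw [hh]
    exact cv_mem R x
  · rw [hh]
    exact cv_mem R x
  · rw [hh]
    exact (ce_mem R).2 hT

theorem inc_fst (t : ℕ) : M.sdPC.inc (C.g t) (C.g t).1.1 := (SdA_inc_iff _ _).2 (Or.inl rfl)

theorem ow_succ (hM : M.IsSphere) (hG : R.G = M.graph) (t : ℕ) :
    C.ow t = C.ow (t + 1) ∨ (C.ow (t + 1) ≠ R.o ∧ C.ow t = R.par (C.ow (t + 1))) ∨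
      (C.ow t ≠ R.o ∧ C.ow (t + 1) = R.par (C.ow t)) := by
  obtain ⟨f, h1, h2⟩ := C.hf t
  exact own_step R hM hG f _ _ (C.g_cut t) (C.g_cut (t + 1)) h1 h2

/-- the times of the descendants of a vertex are an interval -/
theorem ow_conv (hM : M.IsSphere) (hS : M.Simple) (hG : R.G = M.graph) (hF : Nonempty M.F)
    (a : M.V) (i j k : ℕ) (h1 : i < j) (h2 : j < k) (h3 : k < C.m) (h4 : R.anc a (C.ow i))
    (h5 : R.anc a (C.ow k)) : R.anc a (C.ow j) := by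
  by_contra h6
  have hao : a ≠ R.o := by
    rintro rfl
    exact h6 (R.anc_o _)
  have ho : ¬ R.anc a R.o := by
    intro h
    rcases R.anc_cases h with h | h
    · exact hao h
    · exact h.1 rfl
  have h0 : C.ow 0 = R.o := C.h0
  have hi0 : 0 < i := by
    rcases Nat.eq_zero_or_pos i with rfl | h
    · rw [h0] at h4
      exact absurd h4 ho
    · exact h
  obtain ⟨hsp, hsi, htr⟩ := sd_sphere M hM hF
  have c1 := conn_D R hM hG {v | ¬ R.anc a v} R.o ho (fun v hv hvo =>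
    ⟨hvo, fun h => hv (R.anc_trans h (R.anc_par v))⟩)
  have c2 := conn_D R hM hG {v | R.anc a v} a (R.anc_refl a) (fun v hv hva => by
    rcases R.anc_cases hv with h | h
    · exact absurd h.symm hva
    · exact h)
  obtain ⟨x, hx, hx'⟩ := alt M.sdPC hsp hsi htr (ST R) (ST_conn R hM hG)
    (ST_compl R hM hS hG hF) C.m C.g C.hm C.hp C.hi C.hg C.hf 0 i j k hi0 h1 h2 h3 (ST R)
    (Or.inl rfl) {x : M.sdPC.V | x ∈ ST R ∧ cellOwn R x ∈ {v | ¬ R.anc a v}}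
    {x : M.sdPC.V | x ∈ ST R ∧ cellOwn R x ∈ {v | R.anc a v}} (fun x hx => hx.1)
    (fun x hx => hx.1) c1 c2
    ⟨(C.g 0).1.1, ⟨C.in_ST 0, by
      change ¬ R.anc a (C.ow 0)
      rw [h0]
      exact ho⟩, C.inc_fst 0⟩
    ⟨(C.g j).1.1, ⟨C.in_ST j, h6⟩, C.inc_fst j⟩
    ⟨(C.g i).1.1, ⟨C.in_ST i, h4⟩, C.inc_fst i⟩
    ⟨(C.g k).1.1, ⟨C.in_ST k, h5⟩, C.inc_fst k⟩
  exact hx.2 hx'.2

/-- the first time of a vertex -/
theorem first (hM : M.IsSphere) (hG : R.G = M.graph) (hF : Nonempty M.F) (u : M.V)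
    (hu : u ≠ R.o) : ∃ t, 0 < t ∧ t < C.m ∧ C.ow t = u ∧ C.ow (t - 1) = R.par u := by
  have hex : ∃ t, R.anc u (C.ow t) := by
    obtain ⟨t, -, ht⟩ := C.ow_surj hM hF u
    exact ⟨t, by rw [ht]; exact R.anc_refl u⟩
  have h1 := Nat.find_spec hex
  have h2 : ∀ s < Nat.find hex, ¬ R.anc u (C.ow s) := fun s hs => Nat.find_min hex hs
  set t := Nat.find hex with ht
  have h0 : C.ow 0 = R.o := C.h0
  have hpos : 0 < t := by
    rcases Nat.eq_zero_or_pos t with h | h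
    · rw [h, h0] at h1
      rcases R.anc_cases h1 with h3 | h3
      · exact absurd h3 hu
      · exact absurd rfl h3.1
    · exact h
  have hlt : t < C.m := by
    obtain ⟨t', ht', ht''⟩ := C.ow_surj hM hF u
    by_contra hcon
    exact h2 t' (by omega) (by rw [ht'']; exact R.anc_refl u)
  have h3 := h2 (t - 1) (by omega)
  have h4 := C.ow_succ hM hG (t - 1)
  have h5 : t - 1 + 1 = t := by omega
  rw [h5] at h4
  refine ⟨t, hpos, hlt, ?_⟩
  rcases h4 with h4 | ⟨h4, h6⟩ | ⟨h4, h6⟩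
  · rw [h4] at h3
    exact absurd h1 h3
  · rcases R.anc_cases h1 with h7 | ⟨-, h7⟩
    · exact ⟨h7.symm, by rw [h6, ← h7]⟩
    · rw [h6] at h3
      exact absurd h7 h3
  · rw [h6] at h1
    exact absurd (R.anc_trans h1 (R.anc_par _)) h3

/-- two edges which are not tree edges do not cross -/
theorem nt_nc (hM : M.IsSphere) (hS : M.Simple) (hG : R.G = M.graph) (hF : Nonempty M.F)
    {e e1 : M.E} (hT : ¬ TreeE R e) (hT1 : ¬ TreeE R e1) {u v x y : M.V} (he : M.inc e u)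
    (he' : M.inc e v) (he1 : M.inc e1 x) (he1' : M.inc e1 y) {i j k l : ℕ}
    (g1 : C.g i = SdA_ve u e he) (g3 : C.g j = SdA_ve x e1 he1) (g2 : C.g k = SdA_ve v e he')
    (g4 : C.g l = SdA_ve y e1 he1') (h1 : i < j) (h2 : j < k) (h3 : k < l) (h4 : l < C.m) :
    e = e1 := by
  obtain ⟨hsp, hsi, htr⟩ := sd_sphere M hM hF
  obtain ⟨z, hz, hz'⟩ := alt M.sdPC hsp hsi htr (ST R) (ST_conn R hM hG)
    (ST_compl R hM hS hG hF) C.m C.g C.hm C.hp C.hi C.hg C.hf i j k l h1 h2 h3 h4 (ST R)ᶜ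
    (Or.inr rfl) {(M.ce e : M.sdPC.V)} {(M.ce e1 : M.sdPC.V)}
    (by
      intro z hz
      rw [Set.mem_singleton_iff.1 hz]
      exact fun h => hT ((ce_mem R).1 h))
    (by
      intro z hz
      rw [Set.mem_singleton_iff.1 hz]
      exact fun h => hT1 ((ce_mem R).1 h))
    (connOn_singleton _) (connOn_singleton _)
    ⟨M.ce e, rfl, by rw [g1]; exact (SdA_inc_ve _).2 (Or.inr rfl)⟩
    ⟨M.ce e, rfl, by rw [g2]; exact (SdA_inc_ve _).2 (Or.inr rfl)⟩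
    ⟨M.ce e1, rfl, by rw [g3]; exact (SdA_inc_ve _).2 (Or.inr rfl)⟩
    ⟨M.ce e1, rfl, by rw [g4]; exact (SdA_inc_ve _).2 (Or.inr rfl)⟩
  exact SdA_ce_inj.1 (hz.symm.trans hz')

end Con

end Pool.Agent.H.MP_c8cc4c_co.Hub
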