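import Mathlib
import Pool.Agent.H.MP_c8cc4c_co.Hub.T.Own

/-!
# MP_c8cc4c_co, full question, part T: the tour
-/

open scoped Classical
open Finset

noncomputable section

namespace Pool.Agent.H.MP_c8cc4c_co.Hub

/-- The tour without faces: there is only one vertex (`exists_face` shows that there are no edges; `conn`), so
`m = 1`, `own _ = o`, `ch _ _ = 0`. -/
theorem tour_triv {M : PC} (R : Rt M.V) (hM : M.IsSphere) (hG : R.G = M.graph)
    (hF : ¬ Nonempty M.F) : Nonempty (Tour R) := by
  have hE : ∀ e : M.E, False := fun e => by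
    obtain ⟨f, -⟩ := exists_face hM e
    exact hF ⟨f⟩
  have hA : ∀ u v, ¬ R.G.Adj u v := by
    intro u v h
    rw [hG] at h
    obtain ⟨-, e, -, -⟩ := h
    exact hE e
  have hV : ∀ v, v = R.o := by
    intro v
    obtain ⟨n, p, -, -⟩ := hM.conn v R.o
    cases p with
    | nil => rfl
    | cons h q =>
      obtain ⟨-, e, -, -⟩ := h
      exact absurd (hE e) id
  exact ⟨{
    m := 1
    own := fun _ => R.o
    ch := fun _ _ => 0
    surj := fun v => ⟨0, Nat.zero_lt_one, (hV v).symm⟩
    ch_lt := fun _ _ _ => Nat.zero_lt_one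
    own_ch := fun u v h => absurd h (hA u v)
    conv := fun a i j k h1 h2 h3 => by omega
    nc := fun u v x y h => absurd h (hA u v) }⟩

/-- `t` is the time at `u` at which the edge `uv` is seen; `fs` = first times -/
def Tour_P {M : PC} (R : Rt M.V) (C : Con R) (fs : M.V → ℕ) (u v : M.V) (t : ℕ) : Prop :=
  ((u ≠ R.o ∧ R.par u = v) ∧ t = fs u) ∨
    (¬ (u ≠ R.o ∧ R.par u = v) ∧ (v ≠ R.o ∧ R.par v = u) ∧ t = fs v - 1) ∨
    (¬ (u ≠ R.o ∧ R.par u = v) ∧ ¬ (v ≠ R.o ∧ R.par v = u) ∧ t < C.m ∧ ∃ e, ∃ h : M.inc e u,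
      M.inc e v ∧ ¬ TreeE R e ∧ C.g t = SdA_ve u e h)

/-- The tour.
Proof. Without faces: `tour_triv`. Otherwise `exists_con`. `m = C.m`, `own = C.ow`. For every `u ≠ o` let
`fs u` be the time of `Con.first`. For adjacent `u, v` let `e(u, v)` be an edge with the ends `u`, `v` (unique by
`M.Simple`, so `e(u, v) = e(v, u)`). `ch u v` := if `u ≠ o` and `par u = v`: `fs u`; else if `v ≠ o` and `par v = u`:
`fs v - 1`; else the time of the cut edge `SdA_ve u e(u,v)` (`e(u,v)` is not a tree edge: its child end would be `u` or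
`v` with parent the other one, or the child end equal to its parent, impossible).
`own_ch`: `Con.first`, resp. `cellOwn_cv`. `ch_lt`: clear. `conv`: `ow_conv`. `surj`: `ow_surj`.
`nc`: if `uv` is a tree edge (`par u = v` or `par v = u`) then `ch u v` and `ch v u` differ by one, so no time is strictly
between them; the same for `xy`. If both are not tree edges: `nt_nc` gives `e(u,v) = e(x,y)`, so `{x, y} = {u, v}`
(two ends of the edge); `x = u, y = v` contradicts `ch u v < ch x y`; `x = v`, `y = u` contradicts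
`ch x y < ch v u`. (The cases `par u = v` with `u ≠ o` and `par v = u` with `v ≠ o` exclude each other:
heights.) -/
theorem tour : TourStmt := by
  intro M hM hS _ R hG
  by_cases hF : Nonempty M.F
  swap
  · exact tour_triv R hM hG hF
  obtain ⟨C⟩ := exists_con R hM hS hG hF
  have hpn : ∀ u, u ≠ R.o → R.par u ≠ u := fun u hu h => by
    have := R.par_adj u hu
    rw [h] at this
    exact R.G.loopless.irrefl _ this
  have hfs0 : ∀ u, ∃ t, u ≠ R.o → (0 < t ∧ t < C.m ∧ C.ow t = u ∧ C.ow (t - 1) = R.par u) := by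
    intro u
    by_cases hu : u = R.o
    · exact ⟨0, fun h => absurd hu h⟩
    · obtain ⟨t, ht⟩ := C.first hM hG hF u hu
      exact ⟨t, fun _ => ht⟩
  choose fs hfs using hfs0
  have hex : ∀ u v, R.G.Adj u v → ∃ t, Tour_P R C fs u v t := by
    intro u v hadj
    by_cases h1 : u ≠ R.o ∧ R.par u = v
    · exact ⟨fs u, Or.inl ⟨h1, rfl⟩⟩
    by_cases h2 : v ≠ R.o ∧ R.par v = u
    · exact ⟨fs v - 1, Or.inr (Or.inl ⟨h1, h2, rfl⟩)⟩
    have hadj' := hadj
    rw [hG] at hadj'
    obtain ⟨hne, e, he1, he2⟩ := hadj'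
    have hT : ¬ TreeE R e := by
      rintro ⟨c, hc, hc1, hc2⟩
      obtain ⟨p, q, hpq, hh⟩ := hM.inc_two e
      have b1 := (hh u).1 he1
      have b2 := (hh v).1 he2
      have b3 := (hh c).1 hc1
      have b4 := (hh _).1 hc2
      have huv : ∀ w, (w = p ∨ w = q) → w = u ∨ w = v := by
        intro w hw
        rcases b1 with b1 | b1 <;> rcases b2 with b2 | b2
        · exact absurd (b1.trans b2.symm) hne
        · rcases hw with hw | hw
          · exact Or.inl (hw.trans b1.symm)
          · exact Or.inr (hw.trans b2.symm)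
        · rcases hw with hw | hw
          · exact Or.inr (hw.trans b2.symm)
          · exact Or.inl (hw.trans b1.symm)
        · exact absurd (b1.trans b2.symm) hne
      rcases huv c b3 with rfl | rfl
      · rcases huv _ b4 with b | b
        · exact hpn _ hc b
        · exact h1 ⟨hc, b⟩
      · rcases huv _ b4 with b | b
        · exact h2 ⟨hc, b⟩
        · exact hpn _ hc b
    obtain ⟨t, ht, ht'⟩ := C.exists_time (p := SdA_ve u e he1)
      ((cut_cases R _).2 (Or.inl ⟨u, e, he1, rfl, hT⟩))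
    exact ⟨t, Or.inr (Or.inr ⟨h1, h2, ht, e, he1, he2, hT, ht'⟩)⟩
  have hex2 : ∀ u v, ∃ t, R.G.Adj u v → Tour_P R C fs u v t := by
    intro u v
    by_cases h : R.G.Adj u v
    · obtain ⟨t, ht⟩ := hex u v h
      exact ⟨t, fun _ => ht⟩
    · exact ⟨0, fun h' => absurd h' h⟩
  choose ch hch using hex2
  -- the two times of a tree edge differ by one
  have hdiff : ∀ u v, R.G.Adj u v → (u ≠ R.o ∧ R.par u = v) → ch u v = ch v u + 1 := by
    intro u v hadj h1
    have e1 := hch u v hadj
    have e2 := hch v u hadj.symm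
    have hv : ¬ (v ≠ R.o ∧ R.par v = u) := by
      rintro ⟨h3, h4⟩
      have b1 := R.par_f u h1.1
      have b2 := R.par_f v h3
      rw [h1.2] at b1
      rw [h4] at b2
      omega
    rcases e1 with ⟨-, e1⟩ | ⟨e1, -⟩ | ⟨e1, -⟩
    · rcases e2 with ⟨e2, -⟩ | ⟨-, -, e2⟩ | ⟨-, e2, -⟩
      · exact absurd e2 hv
      · have := (hfs u h1.1).1
        omega
      · exact absurd h1 e2
    · exact absurd h1 e1
    · exact absurd h1 e1
  have hcase : ∀ u v, R.G.Adj u v → (ch u v = ch v u + 1 ∨ ch v u = ch u v + 1) ∨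
      ∃ e, ∃ h : M.inc e u, ∃ h' : M.inc e v, ¬ TreeE R e ∧ C.g (ch u v) = SdA_ve u e h ∧
        C.g (ch v u) = SdA_ve v e h' := by
    intro u v hadj
    by_cases h1 : u ≠ R.o ∧ R.par u = v
    · exact Or.inl (Or.inl (hdiff u v hadj h1))
    by_cases h2 : v ≠ R.o ∧ R.par v = u
    · exact Or.inl (Or.inr (hdiff v u hadj.symm h2))
    right
    rcases hch u v hadj with ⟨e1, -⟩ | ⟨-, e1, -⟩ | ⟨-, -, -, e, he1, he2, hT, he⟩
    · exact absurd e1 h1
    · exact absurd e1 h2
    rcases hch v u hadj.symm with ⟨e1, -⟩ | ⟨-, e1, -⟩ | ⟨-, -, -, e', he1', he2', hT', he'⟩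
    · exact absurd e1 h2
    · exact absurd e1 h1
    have hne : u ≠ v := hadj.ne
    obtain rfl := hS e e' u v hne he1 he2 he2' he1'
    exact ⟨e, he1, he1', hT, he, he'⟩
  exact ⟨{
    m := C.m
    own := C.ow
    ch := ch
    surj := fun v => C.ow_surj hM hF v
    ch_lt := by
      intro u v hadj
      rcases hch u v hadj with ⟨e1, e2⟩ | ⟨-, e1, e2⟩ | ⟨-, -, e2, -⟩
      · rw [e2]
        exact (hfs u e1.1).2.1
      · rw [e2]
        have := (hfs v e1.1).2.1
        omega
      · exact e2
    own_ch := by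
      intro u v hadj
      rcases hch u v hadj with ⟨e1, e2⟩ | ⟨-, e1, e2⟩ | ⟨-, -, -, e, he1, -, -, he⟩
      · rw [e2]
        exact (hfs u e1.1).2.2.1
      · rw [e2, (hfs v e1.1).2.2.2]
        exact e1.2
      · change cellOwn R (C.g (ch u v)).1.1 = u
        rw [he]
        rfl
    conv := fun a i j k h1 h2 h3 h4 h5 => C.ow_conv hM hS hG hF a i j k h1 h2 h3 h4 h5
    nc := by
      rintro u v x y huv hxy ⟨h1, h2, h3⟩
      rcases hcase u v huv with (a | a) | ⟨e, he, he', hT, g1, g2⟩
      · omega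
      · omega
      rcases hcase x y hxy with (a | a) | ⟨e1, he1, he1', hT1, g3, g4⟩
      · omega
      · omega
      have hlt : ch y x < C.m := by
        rcases hch y x hxy.symm with ⟨b1, b2⟩ | ⟨-, b1, b2⟩ | ⟨-, -, b2, -⟩
        · rw [b2]
          exact (hfs y b1.1).2.1
        · rw [b2]
          have := (hfs x b1.1).2.1
          omega
        · exact b2
      obtain rfl := C.nt_nc hM hS hG hF hT hT1 he he' he1 he1' g1 g3 g2 g4 h1 h2 h3 hlt
      obtain ⟨p, q, hpq, hh⟩ := hM.inc_two e
      have b1 := (hh u).1 he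
      have b2 := (hh v).1 he'
      have b3 := (hh x).1 he1
      have b4 := (hh y).1 he1'
      have n1 : u ≠ v := huv.ne
      have n2 : x ≠ y := hxy.ne
      have key : (x = u ∧ y = v) ∨ (x = v ∧ y = u) := by
        rcases b1 with rfl | rfl <;> rcases b2 with rfl | rfl
        · exact absurd rfl n1
        · rcases b3 with rfl | rfl <;> rcases b4 with rfl | rfl
          · exact absurd rfl n2
          · exact Or.inl ⟨rfl, rfl⟩
          · exact Or.inr ⟨rfl, rfl⟩
          · exact absurd rfl n2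
        · rcases b3 with rfl | rfl <;> rcases b4 with rfl | rfl
          · exact absurd rfl n2
          · exact Or.inr ⟨rfl, rfl⟩
          · exact Or.inl ⟨rfl, rfl⟩
          · exact absurd rfl n2
        · exact absurd rfl n1
      rcases key with ⟨rfl, rfl⟩ | ⟨rfl, rfl⟩
      · omega
      · omega }⟩

end Pool.Agent.H.MP_c8cc4c_co.Hub
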